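import Pool.Agent.H2.NL.Basic

/-!
# Row PAR of nil_modules: the endomorphisms preserve the parity
-/

set_option autoImplicit false

open Matrix Pool.Agent.H2.NL

namespace Pool.Agent.H1.NL

theorem pf_PAR : T_PAR := by
  intro K _ _ I _ _ F A hA t ht x y hM
  have h1 : t [x.1, x.2, F.st y.2, F.st y.1] ≠ 0 := by
    intro h0
    apply hM
    unfold M4
    simp [h0]
  have h2 := hA.even 2 t [x.1, x.2, F.st y.2, F.st y.1] ht rfl h1
  rw [odds] at h2
  simp only [List.filter_cons, List.filter_nil, F.o_st] at h2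
  revert h2
  cases F.o x.1 <;> cases F.o x.2 <;> cases F.o y.1 <;> cases F.o y.2 <;> simp <;> decide

end Pool.Agent.H1.NL
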